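import Pool.Agent.helper36.LT.Structs

set_option autoImplicit false

/-!
# Galleries: appending, reversing, images
-/

namespace Pool.Agent.helper15.LTQ

open Pool.Agent.helper36.LT

variable {S B C : Type}

theorem fin_append (b : B) (l m : List (Set S × B)) : fin b (l ++ m) = fin (fin b l) m := by
  induction l generalizing b with
  | nil => rfl
  | cons x l ih => exact ih x.2

theorem isGal_append (X : Sys S B) (b : B) (l m : List (Set S × B)) :
    IsGal X b (l ++ m) ↔ IsGal X b l ∧ IsGal X (fin b l) m := by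
  induction l generalizing b with
  | nil => simp [IsGal, fin]
  | cons x l ih => simp [IsGal, fin, ih x.2, and_assoc]

theorem hom_append_right (X : Sys S B) {b : B} {l l' : List (Set S × B)} (m : List (Set S × B))
    (h : Hom X b l l') : Hom X b (l ++ m) (l' ++ m) := by
  induction h with
  | refl b l => exact Hom.refl _ _
  | symm b l m' _ ih => exact Hom.symm _ _ _ ih
  | trans b l m' n _ _ ih1 ih2 => exact Hom.trans _ _ _ _ ih1 ih2
  | cons b x l m' _ ih => exact Hom.cons _ _ _ _ ih
  | triv b T l hT => exact Hom.triv _ _ _ hT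
  | comp b c d T l hT h1 h2 => exact Hom.comp _ _ _ _ _ hT h1 h2
  | sub b c T T' l hT hT' hTT h1 => exact Hom.sub _ _ _ _ _ hT hT' hTT h1

theorem hom_append_left (X : Sys S B) (b : B) (l : List (Set S × B)) {m m' : List (Set S × B)}
    (h : Hom X (fin b l) m m') : Hom X b (l ++ m) (l ++ m') := by
  induction l generalizing b with
  | nil => exact h
  | cons x l ih => exact Hom.cons _ _ _ _ (ih x.2 h)

/-- the reversed gallery -/
def rev : B → List (Set S × B) → List (Set S × B)
  | _, [] => []
  | b, x :: l => rev x.2 l ++ [(x.1, b)]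

theorem fin_rev (b : B) (l : List (Set S × B)) : fin (fin b l) (rev b l) = b := by
  cases l with
  | nil => rfl
  | cons x l => simp [rev, fin_append, fin]

theorem isGal_rev (X : Sys S B) (b : B) (l : List (Set S × B)) (h : IsGal X b l) :
    IsGal X (fin b l) (rev b l) := by
  induction l generalizing b with
  | nil => trivial
  | cons x l ih =>
    obtain ⟨h1, h2, h3⟩ := h
    have h4 := ih x.2 h3
    refine (isGal_append X _ _ _).2 ⟨h4, ?_⟩
    have h5 : fin (fin b (x :: l)) (rev x.2 l) = x.2 := fin_rev x.2 l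
    rw [h5]
    exact ⟨h1, X.symm _ _ _ h1 h2, trivial⟩

theorem hom_append_rev (X : Sys S B) (b : B) (l : List (Set S × B)) (h : IsGal X b l) :
    Hom X b (l ++ rev b l) [] := by
  induction l generalizing b with
  | nil => exact Hom.refl _ _
  | cons x l ih =>
    obtain ⟨h1, h2, h3⟩ := h
    have h4 := ih x.2 h3
    have h5 : (x :: l) ++ rev b (x :: l) = x :: ((l ++ rev x.2 l) ++ [(x.1, b)]) := by
      simp [rev]
    rw [h5]
    have h6 : Hom X b (x :: ((l ++ rev x.2 l) ++ [(x.1, b)])) (x :: ([] ++ [(x.1, b)])) :=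
      Hom.cons _ _ _ _ (hom_append_right X _ h4)
    refine Hom.trans _ _ _ _ h6 ?_
    have h7 : Hom X b ((x.1, x.2) :: (x.1, b) :: []) ((x.1, b) :: []) :=
      Hom.comp b x.2 b x.1 [] h1 h2 (X.symm _ _ _ h1 h2)
    exact Hom.trans _ _ _ _ h7 (Hom.triv _ _ _ h1)

/-- the image of a gallery -/
def mp (q : B → C) (l : List (Set S × B)) : List (Set S × C) := l.map fun x => (x.1, q x.2)

theorem mp_append (q : B → C) (l m : List (Set S × B)) : mp q (l ++ m) = mp q l ++ mp q m := by
  simp [mp]

theorem fin_mp (q : B → C) (b : B) (l : List (Set S × B)) : fin (q b) (mp q l) = q (fin b l) := by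
  induction l generalizing b with
  | nil => rfl
  | cons x l ih => exact ih x.2

theorem rev_mp (q : B → C) (b : B) (l : List (Set S × B)) : rev (q b) (mp q l) = mp q (rev b l) := by
  induction l generalizing b with
  | nil => rfl
  | cons x l ih =>
    have h := ih x.2
    simp only [rev, mp_append]
    have : rev (q b) (mp q (x :: l)) = rev (q x.2) (mp q l) ++ [(x.1, q b)] := rfl
    rw [this, h]
    rfl

theorem isGal_mp (X : Sys S B) (Y : Sys S C) (q : B → C)
    (hq : ∀ T b c, X.r T b c → Y.r T (q b) (q c)) (b : B) (l : List (Set S × B))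
    (h : IsGal X b l) : IsGal Y (q b) (mp q l) := by
  induction l generalizing b with
  | nil => trivial
  | cons x l ih => exact ⟨h.1, hq _ _ _ h.2.1, ih x.2 h.2.2⟩

theorem hom_mp (X : Sys S B) (Y : Sys S C) (q : B → C)
    (hq : ∀ T b c, X.r T b c → Y.r T (q b) (q c)) {b : B} {l m : List (Set S × B)}
    (h : Hom X b l m) : Hom Y (q b) (mp q l) (mp q m) := by
  induction h with
  | refl b l => exact Hom.refl _ _
  | symm b l m' _ ih => exact Hom.symm _ _ _ ih
  | trans b l m' n _ _ ih1 ih2 => exact Hom.trans _ _ _ _ ih1 ih2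
  | cons b x l m' _ ih => exact Hom.cons _ (x.1, q x.2) _ _ ih
  | triv b T l hT => exact Hom.triv _ _ _ hT
  | comp b c d T l hT h1 h2 => exact Hom.comp _ _ _ _ _ hT (hq _ _ _ h1) (hq _ _ _ h2)
  | sub b c T T' l hT hT' hTT h1 => exact Hom.sub _ _ _ _ _ hT hT' hTT (hq _ _ _ h1)

/-- a gallery lifts -/
theorem lift_gal (X : Sys S B) (Y : Sys S C) (q : B → C)
    (hl : ∀ T b c, IsTy T → Y.r T (q b) c → ∃ b', q b' = c ∧ X.r T b b') (b : B)
    (l : List (Set S × C)) (h : IsGal Y (q b) l) : ∃ l', IsGal X b l' ∧ mp q l' = l := by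
  induction l generalizing b with
  | nil => exact ⟨[], trivial, rfl⟩
  | cons x l ih =>
    obtain ⟨h1, h2, h3⟩ := h
    obtain ⟨b', h4, h5⟩ := hl _ _ _ h1 h2
    have h6 : IsGal Y (q b') l := by rw [h4]; exact h3
    obtain ⟨l', h7, h8⟩ := ih b' h6
    refine ⟨(x.1, b') :: l', ⟨h1, h5, h7⟩, ?_⟩
    have : mp q ((x.1, b') :: l') = (x.1, q b') :: mp q l' := rfl
    rw [this, h8, h4]

end Pool.Agent.helper15.LTQ
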