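import Pool.Agent.helper15.LTQ.Quot

set_option autoImplicit false

/-!
# The quotient chamber system is simply connected; the module M4
-/

namespace Pool.Agent.helper15.LTQ

open Pool.Agent.helper36.LT

variable {S B : Type} {H : Type} [Group H] [MulAction H B]

/-- two galleries with the same ends are homotopic -/
theorem hom_of_sc (X : Sys S B) (hX : X.SC) {b : B} {l l' : List (Set S × B)} (hl : IsGal X b l)
    (hl' : IsGal X b l') (he : fin b l = fin b l') : Hom X b l l' := by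
  have h1 : IsGal X (fin b l) (rev b l' ++ l') := by
    rw [he]
    refine (isGal_append X _ _ _).2 ⟨isGal_rev X b l' hl', ?_⟩
    rw [fin_rev]
    exact hl'
  have h2 : fin (fin b l) (rev b l' ++ l') = fin b l := by
    rw [he, fin_append, fin_rev]
  have h3 := hom_append_left X b l (hX.2.2 _ _ h1 h2)
  have h4 : IsGal X b (l ++ rev b l') := by
    refine (isGal_append X _ _ _).2 ⟨hl, ?_⟩
    rw [he]
    exact isGal_rev X b l' hl'
  have h5 : fin b (l ++ rev b l') = b := by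
    rw [fin_append, he, fin_rev]
  have h6 := hom_append_right X l' (hX.2.2 _ _ h4 h5)
  rw [List.append_assoc] at h6
  rw [List.append_nil] at h3
  exact Hom.trans _ _ _ _ (Hom.symm _ _ _ h3) h6

variable {X : Sys S B} {φ : H →* Multiplicative ℤ} {m : ℕ}

theorem mp_mp_smul (N : Subgroup H) (n : H) (hn : n ∈ N) (l : List (Set S × B)) :
    mp (qq N) (mp (fun b => n • b) l) = mp (qq N) l := by
  unfold mp
  rw [List.map_map]
  refine List.map_congr_left ?_
  intro x _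
  show (x.1, qq N (n • x.2)) = (x.1, qq N x.2)
  rw [qq_smul N n hn]

theorem Ctx.hq (D : Ctx X φ m) (T : Set S) (b c : B) (h : X.r T b c) :
    D.Y.r T (qq _ b) (qq _ c) := ⟨b, c, rfl, rfl, h⟩

theorem Ctx.hlift (D : Ctx X φ m) (T : Set S) (b : B) (c : Orb B (NN X φ m)) (_ : IsTy T)
    (h : D.Y.r T (qq _ b) c) : ∃ b', qq _ b' = c ∧ X.r T b b' := by
  obtain ⟨b', rfl⟩ := qq_surj _ c
  obtain ⟨n, hn⟩ := (YR_iff X D.inv _ _ _ _).1 h
  exact ⟨(n : H) • b', qq_smul _ _ n.2 _, hn⟩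

/-- the image of a gallery from `b` to `n b` is null homotopic -/
theorem Ctx.null (D : Ctx X φ m) (hX : X.SC) (b : B) {n : H} (hn : n ∈ NN X φ m) :
    ∀ l, IsGal X b l → fin b l = n • b → Hom D.Y (qq _ b) (mp (qq (NN X φ m)) l) [] := by
  refine Subgroup.closure_induction (p := fun n _ => ∀ l, IsGal X b l → fin b l = n • b →
    Hom D.Y (qq _ b) (mp (qq (NN X φ m)) l) []) ?_ ?_ ?_ ?_ hn
  · intro h hgen l hl hfl
    have hN : h ∈ NN X φ m := Subgroup.subset_closure hgen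
    obtain ⟨T, c, hT, h1, _⟩ := hgen
    obtain ⟨l1, hl1, hf1⟩ := hX.2.1 b c
    have h2 : IsGal X b (l1 ++ (T, h • c) :: mp (fun b => h • b) (rev b l1)) := by
      refine (isGal_append X _ _ _).2 ⟨hl1, ?_⟩
      rw [hf1]
      refine ⟨hT, h1, ?_⟩
      have h3 := isGal_mp X X (fun b => h • b) (fun T b c hr => D.inv h T b c hr) _ _
        (isGal_rev X b l1 hl1)
      rw [hf1] at h3
      exact h3
    have h3 : fin b (l1 ++ (T, h • c) :: mp (fun b => h • b) (rev b l1)) = h • b := by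
      rw [fin_append, hf1]
      show fin (h • c) (mp (fun b => h • b) (rev b l1)) = h • b
      have h4 := fin_mp (S := S) (fun b : B => h • b) c (rev b l1)
      rw [h4, ← hf1, fin_rev]
    have h4 := hom_mp X D.Y (qq _) D.hq (hom_of_sc X hX hl h2 (hfl.trans h3.symm))
    refine Hom.trans _ _ _ _ h4 ?_
    rw [mp_append]
    have h5 : mp (qq (NN X φ m)) ((T, h • c) :: mp (fun b => h • b) (rev b l1)) =
        (T, qq (NN X φ m) c) :: mp (qq (NN X φ m)) (rev b l1) := by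
      have h6 : mp (qq (NN X φ m)) ((T, h • c) :: mp (fun b => h • b) (rev b l1)) =
        (T, qq (NN X φ m) (h • c)) :: mp (qq (NN X φ m)) (mp (fun b => h • b) (rev b l1)) := rfl
      rw [h6, qq_smul _ h hN, mp_mp_smul _ h hN]
    rw [h5]
    have h6 : Hom D.Y (fin (qq _ b) (mp (qq (NN X φ m)) l1))
        ((T, qq (NN X φ m) c) :: mp (qq (NN X φ m)) (rev b l1))
        (mp (qq (NN X φ m)) (rev b l1)) := by
      rw [fin_mp, hf1]
      exact Hom.triv _ _ _ hT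
    refine Hom.trans _ _ _ _ (hom_append_left D.Y _ _ h6) ?_
    rw [← rev_mp]
    exact hom_append_rev D.Y _ _ (isGal_mp X D.Y (qq _) D.hq b l1 hl1)
  · intro l hl hfl
    rw [one_smul] at hfl
    exact hom_mp X D.Y (qq _) D.hq (hX.2.2 _ _ hl hfl)
  · intro n1 n2 hn1 hn2 ih1 ih2 l hl hfl
    obtain ⟨l1, hl1, hf1⟩ := hX.2.1 b (n1 • b)
    obtain ⟨l2, hl2, hf2⟩ := hX.2.1 b (n2 • b)
    have h2 : IsGal X b (l1 ++ mp (fun b => n1 • b) l2) := by
      refine (isGal_append X _ _ _).2 ⟨hl1, ?_⟩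
      rw [hf1]
      exact isGal_mp X X (fun b => n1 • b) (fun T b c hr => D.inv n1 T b c hr) _ _ hl2
    have h3 : fin b (l1 ++ mp (fun b => n1 • b) l2) = (n1 * n2) • b := by
      rw [fin_append, hf1]
      have h4 := fin_mp (S := S) (fun b : B => n1 • b) b l2
      rw [h4, hf2, mul_smul]
    have h4 := hom_mp X D.Y (qq _) D.hq (hom_of_sc X hX hl h2 (hfl.trans h3.symm))
    refine Hom.trans _ _ _ _ h4 ?_
    rw [mp_append, mp_mp_smul (NN X φ m) n1 hn1]
    exact Hom.trans _ _ _ _ (hom_append_right D.Y _ (ih1 l1 hl1 hf1)) (ih2 l2 hl2 hf2)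
  · intro n1 hn1 ih l hl hfl
    obtain ⟨l1, hl1, hf1⟩ := hX.2.1 b (n1 • b)
    have h2 : IsGal X b (mp (fun b => n1⁻¹ • b) (rev b l1)) := by
      have h3 := isGal_mp X X (fun b => n1⁻¹ • b) (fun T b c hr => D.inv n1⁻¹ T b c hr) _ _
        (isGal_rev X b l1 hl1)
      have h4 : n1⁻¹ • fin b l1 = b := by rw [hf1, inv_smul_smul]
      simp only [h4] at h3
      exact h3
    have h3 : fin b (mp (fun b => n1⁻¹ • b) (rev b l1)) = n1⁻¹ • b := by
      have h4 := fin_mp (S := S) (fun b : B => n1⁻¹ • b) (n1 • b) (rev b l1)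
      rw [inv_smul_smul] at h4
      rw [h4, ← hf1, fin_rev]
    have h4 := hom_mp X D.Y (qq _) D.hq (hom_of_sc X hX hl h2 (hfl.trans h3.symm))
    refine Hom.trans _ _ _ _ h4 ?_
    rw [mp_mp_smul (NN X φ m) n1⁻¹ (inv_mem hn1), ← rev_mp]
    have h5 := hom_append_rev D.Y _ _ (isGal_mp X D.Y (qq _) D.hq b l1 hl1)
    have h6 := hom_append_right D.Y (rev (qq _ b) (mp (qq (NN X φ m)) l1)) (ih l1 hl1 hf1)
    exact Hom.trans _ _ _ _ (Hom.symm _ _ _ h6) h5

theorem Ctx.sc (D : Ctx X φ m) (hX : X.SC) : D.Y.SC := by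
  refine ⟨hX.1.map (qq _), ?_, ?_⟩
  · intro c c'
    obtain ⟨b, rfl⟩ := qq_surj _ c
    obtain ⟨b', rfl⟩ := qq_surj _ c'
    obtain ⟨l, hl, hf⟩ := hX.2.1 b b'
    refine ⟨mp (qq _) l, isGal_mp X D.Y _ D.hq b l hl, ?_⟩
    rw [fin_mp, hf]
  · intro c l hl hf
    obtain ⟨b, rfl⟩ := qq_surj _ c
    obtain ⟨l', hl', rfl⟩ := lift_gal X D.Y (qq _) (fun T b c hT h => D.hlift T b c hT h) b l hl
    rw [fin_mp] at hf
    obtain ⟨n, hn⟩ := (qq_eq _ _ _).1 hf.symm
    exact D.null hX b n.2 l' hl' hn.symm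

/-- the marks -/
def Ctx.Mk (_ : Ctx X φ m) (T : Set S) (c : Orb B (NN X φ m)) : Prop :=
  ∃ b, qq _ b = c ∧ ∃ n ∈ X.stab (NN X φ m) T b, n ≠ 1

theorem Ctx.mk_iff (D : Ctx X φ m) (T : Set S) (b : B) :
    D.Mk T (qq _ b) ↔ ∃ n ∈ X.stab (NN X φ m) T b, n ≠ 1 := by
  have hN := NN_normal X φ m D.inv
  constructor
  · rintro ⟨c, hc, n, hn, h1⟩
    obtain ⟨k, hk⟩ := (qq_eq _ _ _).1 hc
    refine ⟨k * n * k⁻¹, ?_, ?_⟩
    · show X.r T b ((k * n * k⁻¹) • b)
      rw [← hk, ← mul_smul, inv_mul_cancel_right, mul_smul]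
      exact D.inv (k : H) _ _ _ hn
    · intro h
      apply h1
      have : n = k⁻¹ * (k * n * k⁻¹) * k := by group
      rw [this, h]
      group
  · rintro ⟨n, hn, h1⟩
    exact ⟨b, rfl, n, hn, h1⟩

theorem Ctx.mk_iff' (D : Ctx X φ m) (T : Set S) (b : B) :
    D.Mk T (qq _ b) ↔ ∃ n ∈ NN X φ m, n ∈ X.stab H T b ∧ n ≠ 1 := by
  rw [D.mk_iff]
  constructor
  · rintro ⟨n, hn, h1⟩
    exact ⟨n, n.2, hn, fun h => h1 (Subtype.ext h)⟩
  · rintro ⟨n, hn, h1, h2⟩
    exact ⟨⟨n, hn⟩, h1, fun h => h2 (congrArg Subtype.val h)⟩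

theorem Ctx.mk_stab (D : Ctx X φ m) {T T' : Set S} {b : B} (hT : IsTy T) (hT' : IsTy T')
    (hTT : T ⊆ T') (h : D.Mk T (qq _ b)) : X.stab H T b = X.stab H T' b := by
  obtain ⟨n, _, h1, h2⟩ := (D.mk_iff' T b).1 h
  exact D.stab_eq hT hT' hTT h1 h2

theorem Ctx.marks (D : Ctx X φ m) : Marks D.Y D.Mk where
  congr := by
    intro T c c' hT h1 h2
    obtain ⟨b, rfl⟩ := qq_surj _ c
    obtain ⟨b', rfl, h3⟩ := D.hlift T b c' hT h1
    obtain ⟨n, hn, h4, h5⟩ := (D.mk_iff' T b).1 h2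
    refine (D.mk_iff' T b').2 ⟨n, hn, ?_, h5⟩
    rw [← stab_congr X D.inv hT h3]
    exact h4
  up := by
    intro T T' c hT hT' hTT h
    obtain ⟨b, rfl⟩ := qq_surj _ c
    obtain ⟨n, hn, h4, h5⟩ := (D.mk_iff' T b).1 h
    exact (D.mk_iff' T' b).2 ⟨n, hn, stab_mono X hT hT' hTT b h4, h5⟩
  two := by
    intro s t c hst h1 h2
    obtain ⟨b, rfl⟩ := qq_surj _ c
    obtain ⟨n, hn, h4, h5⟩ := (D.mk_iff' {s} b).1 h1
    have hs := isTy_one s
    have ht := isTy_one t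
    have hT := isTy_two hst
    have e1 := D.mk_stab hs hT (by simp) h1
    have e2 := D.mk_stab ht hT (by simp) h2
    refine (D.mk_iff' ∅ b).2 ⟨n, hn, ?_, h5⟩
    have h6 : n ∈ X.stab H {t} b := by rw [e2, ← e1]; exact h4
    have h7 := X.two s t b (n • b) hst h4 h6
    show X.r ∅ b (n • b)
    rw [← h7]
    exact X.refl _ _ isTy_empty
  four := by
    intro s t c c' hst hcc h1 h2 h3
    obtain ⟨b, rfl⟩ := qq_surj _ c
    have hs := isTy_one s
    have ht := isTy_one t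
    have hT := isTy_two hst
    obtain ⟨b', rfl, h4⟩ := D.hlift {s} b c' hs h1
    obtain ⟨n, hn, h5, h6⟩ := (D.mk_iff' {t} b).1 h2
    have e1 := D.mk_stab ht hT (by simp) h2
    have e2 := D.mk_stab ht hT (by simp) h3
    have h7 : X.r {s, t} b b' := X.mono _ _ _ _ (by simp) hs hT h4
    have e3 := stab_congr X D.inv hT h7
    have h8 : n ∈ X.stab H {t} b' := by rw [e2, ← e3, ← e1]; exact h5
    have hne : b ≠ b' := fun h => hcc (congrArg _ h)
    have h9 : b' = n • b' := by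
      rcases X.four s t b b' (n • b') (n • b) hst h4 h8 (X.symm _ _ _ hs (D.inv n _ _ _ h4))
        (X.symm _ _ _ ht h5) with h | h
      · exact absurd h hne
      · exact h
    have h10 : n ∈ X.stab H {s} b := by
      rw [stab_congr X D.inv hs h4]
      show X.r {s} b' (n • b')
      rw [← h9]
      exact X.refl _ _ hs
    have h11 := X.two s t b (n • b) hst h10 h5
    refine (D.mk_iff' ∅ b).2 ⟨n, hn, ?_, h6⟩
    show X.r ∅ b (n • b)
    rw [← h11]
    exact X.refl _ _ isTy_empty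

theorem Ctx.pow_mem (D : Ctx X φ m) {T : Set S} {b : B} (hT : IsTy T) {h : H}
    (hh : h ∈ X.stab H T b) : h ^ m ∈ NN X φ m := by
  refine mem_NN X φ m D.inv D.inj D.surj hT ((stabSub X D.inv T hT b).pow_mem hh m) ?_
  rw [map_pow, toAdd_pow, nsmul_eq_mul]
  exact dvd_mul_right _ _

/-- the cosets which meet a stabiliser are finitely many -/
theorem Ctx.fin_image (D : Ctx X φ m) {T : Set S} {b : B} (hT : IsTy T) :
    ((fun h : H => (QuotientGroup.mk h : H ⧸ NN X φ m)) '' X.stab H T b).Finite := by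
  by_cases h1 : ∃ h ∈ X.stab H T b, h ≠ 1
  · obtain ⟨z, hz, he⟩ := D.surj T b hT h1 (Multiplicative.ofAdd 1)
    have hzm := D.pow_mem hT hz
    refine Set.Finite.subset ((Set.finite_lt_nat m).image
      fun i : ℕ => (QuotientGroup.mk (z ^ i) : H ⧸ NN X φ m)) ?_
    rintro _ ⟨h, hh, rfl⟩
    set k := Multiplicative.toAdd (φ h) with hk
    have h2 : z ^ k = h := by
      refine phi_inj X D.inv φ D.inj hT ((stabSub X D.inv T hT b).zpow_mem hz k) hh ?_
      rw [map_zpow, he]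
      apply Multiplicative.toAdd.injective
      rw [toAdd_zpow, toAdd_ofAdd, smul_eq_mul, mul_one, hk]
    have hm : (m : ℤ) ≠ 0 := by
      have := D.pos
      omega
    obtain ⟨i, hi⟩ := Int.eq_ofNat_of_zero_le (Int.emod_nonneg k hm)
    refine ⟨i, ?_, ?_⟩
    · have h3 := Int.emod_lt_of_pos k (by have := D.pos; omega : (0 : ℤ) < m)
      show i < m
      omega
    · show (QuotientGroup.mk (z ^ i) : H ⧸ NN X φ m) = QuotientGroup.mk h
      rw [QuotientGroup.eq]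
      have h3 : (z ^ i)⁻¹ * h = (z ^ m) ^ (k / m) := by
        rw [← h2, ← zpow_natCast, ← zpow_natCast, ← zpow_mul, ← zpow_neg, ← zpow_add]
        congr 1
        have := Int.emod_add_mul_ediv k m
        rw [← hi]
        omega
      rw [h3]
      exact Subgroup.zpow_mem _ hzm _
  · push Not at h1
    refine Set.Finite.subset (Set.finite_singleton (QuotientGroup.mk (1 : H) : H ⧸ NN X φ m)) ?_
    rintro _ ⟨h, hh, rfl⟩
    rw [h1 h hh]
    rfl

/-- M4: the quotient -/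
theorem quotient [Finite S] (H B : Type) [Group H] [MulAction H B] (X : Sys S B) (hX : X.SC)
    (hH : X.Inv H) (hF : FinOrb H B) (φ : H →* Multiplicative ℤ) (hφ : X.InjStab φ)
    (hsurj : ∀ T b, IsTy T → (∃ h ∈ X.stab H T b, h ≠ 1) → ∀ k, ∃ h ∈ X.stab H T b, φ h = k) :
    ∃ (N : Subgroup H) (_ : N.Normal) (C : Type) (Y : Sys S C) (_ : MulAction (H ⧸ N) C)
      (q : B → C) (Mk : Set S → C → Prop),
      Y.SC ∧ Y.Inv (H ⧸ N) ∧ (∀ T c, IsTy T → (Y.stab (H ⧸ N) T c).Finite) ∧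
      Function.Surjective q ∧ (∀ b b', q b = q b' ↔ ∃ n : N, n • b = b') ∧
      (∀ T b b', IsTy T → (Y.r T (q b) (q b') ↔ ∃ n : N, X.r T b (n • b'))) ∧
      (∀ T b, IsTy T → (Mk T (q b) ↔ ∃ n ∈ X.stab N T b, n ≠ 1)) ∧
      (∀ T T' b, IsTy T → IsTy T' → T ⊆ T' → Mk T (q b) → X.stab N T b = X.stab N T' b) ∧
      Marks Y Mk ∧ ∀ (T : Set S) (b : B), IsTy T → ∀ h ∈ X.stab H T b, ∃ k : ℕ, k ≠ 0 ∧ h ^ k ∈ N := by
  obtain ⟨m, hm, hbd⟩ := exists_bound X hH hF φ
  have D : Ctx X φ m := ⟨hH, hφ, hsurj, hm, hbd⟩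
  have hN := NN_normal X φ m hH
  refine ⟨NN X φ m, hN, Orb B (NN X φ m), D.Y, orbAct (NN X φ m), qq _, D.Mk, D.sc hX, ?_, ?_,
    qq_surj _, qq_eq _, ?_, ?_, ?_, D.marks, ?_⟩
  · rintro g T c c' ⟨b, b', rfl, rfl, h3⟩
    obtain ⟨h, rfl⟩ := QuotientGroup.mk_surjective g
    exact ⟨h • b, h • b', rfl, rfl, hH h _ _ _ h3⟩
  · intro T c hT
    obtain ⟨b, rfl⟩ := qq_surj _ c
    refine (D.fin_image (b := b) hT).subset ?_
    intro g hg
    obtain ⟨h, rfl⟩ := QuotientGroup.mk_surjective g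
    have hg' : YR X (NN X φ m) T (qq _ b) (qq _ (h • b)) := hg
    obtain ⟨n, hn⟩ := (YR_iff X hH _ _ _ _).1 hg'
    refine ⟨(n : H) * h, ?_, ?_⟩
    · show X.r T b (((n : H) * h) • b)
      rw [mul_smul]
      exact hn
    · show (QuotientGroup.mk ((n : H) * h) : H ⧸ NN X φ m) = QuotientGroup.mk h
      rw [QuotientGroup.eq]
      have h3 : ((n : H) * h)⁻¹ * h = h⁻¹ * (n : H)⁻¹ * (h⁻¹)⁻¹ := by group
      rw [h3]
      exact hN.conj_mem _ (inv_mem n.2) _
  · intro T b b' _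
    exact YR_iff X hH _ T b b'
  · intro T b _
    exact D.mk_iff T b
  · intro T T' b hT hT' hTT h
    have h1 := D.mk_stab hT hT' hTT h
    ext n
    have h2 : (n : H) ∈ X.stab H T b ↔ (n : H) ∈ X.stab H T' b := by rw [h1]
    exact h2
  · intro T b hT h hh
    exact ⟨m, hm.ne', D.pow_mem hT hh⟩

end Pool.Agent.helper15.LTQ
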