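import Pool.Agent.helper15.LTQ.Stab

set_option autoImplicit false

/-!
# The quotient chamber system
-/

namespace Pool.Agent.helper15.LTQ

open Pool.Agent.helper36.LT

variable {S B : Type} {H : Type} [Group H] [MulAction H B]

/-- the orbits of `N` -/
def Orb (B : Type) {H : Type} [Group H] [MulAction H B] (N : Subgroup H) : Type :=
  MulAction.orbitRel.Quotient N B

/-- the orbit of `b` -/
def qq (N : Subgroup H) (b : B) : Orb B N := Quotient.mk (MulAction.orbitRel N B) b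

theorem qq_eq (N : Subgroup H) (b b' : B) : qq N b = qq N b' ↔ ∃ n : N, n • b = b' := by
  have h : qq N b = qq N b' ↔ b ∈ MulAction.orbit N b' :=
    Quotient.eq (r := MulAction.orbitRel N B)
  rw [h]
  constructor
  · rintro ⟨n, hn⟩
    refine ⟨n⁻¹, ?_⟩
    have hn' : n • b' = b := hn
    rw [← hn', inv_smul_smul]
  · rintro ⟨n, hn⟩
    refine ⟨n⁻¹, ?_⟩
    show n⁻¹ • b' = b
    rw [← hn, inv_smul_smul]

theorem qq_smul (N : Subgroup H) (n : H) (hn : n ∈ N) (b : B) : qq N (n • b) = qq N b :=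
  ((qq_eq N b (n • b)).2 ⟨⟨n, hn⟩, rfl⟩).symm

theorem qq_surj (N : Subgroup H) (c : Orb B N) : ∃ b : B, qq N b = c := Quotient.exists_rep c

/-- the action of the quotient group on the orbits -/
def orbAct (N : Subgroup H) [hN : N.Normal] : MulAction (H ⧸ N) (Orb B N) where
  smul g c := Quotient.liftOn₂' g c (fun h b => qq N (h • b)) (by
    intro h b h' b' hh hb
    have h1 : h⁻¹ * h' ∈ N := QuotientGroup.leftRel_apply.1 hh
    have h2 : qq N b = qq N b' := Quotient.sound hb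
    obtain ⟨n, hn⟩ := (qq_eq N b b').1 h2
    refine (qq_eq N _ _).2 ⟨⟨h' * (n : H) * h⁻¹, ?_⟩, ?_⟩
    · have h3 : h' * (n : H) * h⁻¹ = (h * (h⁻¹ * h') * h⁻¹) * (h * (n : H) * h⁻¹) := by group
      rw [h3]
      exact mul_mem (hN.conj_mem _ h1 h) (hN.conj_mem _ n.2 h)
    · show (h' * (n : H) * h⁻¹) • h • b = h' • b'
      rw [← mul_smul, inv_mul_cancel_right, mul_smul]
      have : (n : H) • b = b' := hn
      rw [this])
  one_smul c := by
    obtain ⟨b, rfl⟩ := qq_surj N c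
    show qq N ((1 : H) • b) = qq N b
    rw [one_smul]
  mul_smul g g' c := by
    obtain ⟨b, rfl⟩ := qq_surj N c
    obtain ⟨h, rfl⟩ := QuotientGroup.mk_surjective g
    obtain ⟨h', rfl⟩ := QuotientGroup.mk_surjective g'
    show qq N ((h * h') • b) = qq N (h • h' • b)
    rw [mul_smul]

theorem orbAct_mk (N : Subgroup H) [hN : N.Normal] (h : H) (b : B) :
    (orbAct N).toSMul.smul (QuotientGroup.mk h : H ⧸ N) (qq N b) = qq N (h • b) := rfl

/-- the relations of the quotient -/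
def YR (X : Sys S B) (N : Subgroup H) (T : Set S) (c c' : Orb B N) : Prop :=
  ∃ b b', qq N b = c ∧ qq N b' = c' ∧ X.r T b b'

theorem YR_iff (X : Sys S B) (hH : X.Inv H) (N : Subgroup H) (T : Set S) (b b' : B) :
    YR X N T (qq N b) (qq N b') ↔ ∃ n : N, X.r T b (n • b') := by
  constructor
  · rintro ⟨c, c', h1, h2, h3⟩
    obtain ⟨n, hn⟩ := (qq_eq N _ _).1 h1
    obtain ⟨k, hk⟩ := (qq_eq N _ _).1 h2.symm
    refine ⟨n * k, ?_⟩
    rw [mul_smul, hk, ← hn]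
    exact hH (n : H) _ _ _ h3
  · rintro ⟨n, hn⟩
    exact ⟨b, n • b', rfl, qq_smul N n n.2 b', hn⟩

/-- the data of the construction -/
structure Ctx (X : Sys S B) (φ : H →* Multiplicative ℤ) (m : ℕ) : Prop where
  inv : X.Inv H
  inj : X.InjStab φ
  surj : ∀ T b, IsTy T → (∃ h ∈ X.stab H T b, h ≠ 1) → ∀ k, ∃ h ∈ X.stab H T b, φ h = k
  pos : 0 < m
  bd : ∀ (b : B) (h : H) (j : ℕ), (∀ g ∈ X.stab H ∅ b, g = 1) → j ≤ 4 →
      h • b ∈ Reach X H j b → (Multiplicative.toAdd (φ h)).natAbs < m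

variable {X : Sys S B} {φ : H →* Multiplicative ℤ} {m : ℕ}

theorem Ctx.stab_eq (D : Ctx X φ m) {T T' : Set S} (hT : IsTy T) (hT' : IsTy T') (hTT : T ⊆ T')
    {b : B} {h : H} (hh : h ∈ X.stab H T b) (h1 : h ≠ 1) : X.stab H T b = X.stab H T' b :=
  LTQ.stab_eq X D.inv φ D.inj D.surj hT hT' hTT hh h1

/-- `n` does not move `b` to a chamber which is reachable through unmarked panels -/
theorem Ctx.not_reach (D : Ctx X φ m) {n : H} (hn : n ∈ NN X φ m) (h1 : n ≠ 1) {T : Set S}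
    (hT : IsTy T) {c b : B} (hc : n ∈ X.stab H T c) (hb : ∀ g ∈ X.stab H ∅ b, g = 1) {j : ℕ}
    (hj : j ≤ 4) (hr : n • b ∈ Reach X H j b) : False := by
  have h2 := D.bd b n j hb hj hr
  have h3 := NN_dvd X φ m hn
  have h4 : Multiplicative.toAdd (φ n) = 0 := by
    apply Int.eq_zero_of_dvd_of_natAbs_lt_natAbs h3
    rwa [Int.natAbs_natCast]
  have h5 : φ n = 1 := by
    apply Multiplicative.toAdd.injective
    rw [h4]
    rfl
  exact h1 (D.inj T c hT n hc h5)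

theorem Ctx.two (D : Ctx X φ m) {n : H} (hn : n ∈ NN X φ m) {s t : S} (hst : s ≠ t) {b c : B}
    (h1 : X.r {s} b c) (h2 : X.r {t} b (n • c)) : b = c ∨ b = n • c := by
  have hs := isTy_one s
  have ht := isTy_one t
  have hT := isTy_two hst
  have hsT : ({s} : Set S) ⊆ {s, t} := by simp
  have htT : ({t} : Set S) ⊆ {s, t} := by simp
  by_cases h0 : n = 1
  · left
    rw [h0, one_smul] at h2
    exact X.two s t b c hst h1 h2
  have h3 : X.r {s, t} b c := X.mono _ _ _ _ hsT hs hT h1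
  have h4 : X.r {s, t} b (n • c) := X.mono _ _ _ _ htT ht hT h2
  have hnb : n ∈ X.stab H {s, t} b :=
    X.trans _ _ _ _ hT h4 (X.symm _ _ _ hT (D.inv n _ _ _ h3))
  by_cases hms : ∃ h ∈ X.stab H {s} b, h ≠ 1
  · obtain ⟨h, hh, hh1⟩ := hms
    rw [← D.stab_eq hs hT hsT hh hh1] at hnb
    right
    refine X.two s t _ _ hst ?_ h2
    exact X.trans _ _ _ _ hs hnb (D.inv n _ _ _ h1)
  by_cases hmt : ∃ h ∈ X.stab H {t} b, h ≠ 1
  · obtain ⟨h, hh, hh1⟩ := hmt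
    rw [← D.stab_eq ht hT htT hh hh1] at hnb
    left
    refine X.two s t _ _ hst h1 ?_
    have h5 : X.r {t} (n • b) (n • c) := X.trans _ _ _ _ ht (X.symm _ _ _ ht hnb) h2
    have h6 := D.inv n⁻¹ _ _ _ h5
    rwa [inv_smul_smul, inv_smul_smul] at h6
  exfalso
  push Not at hms hmt
  have hms' : ∀ h ∈ X.stab H {s} c, h = 1 := by
    rw [← stab_congr X D.inv hs h1]
    exact hms
  refine D.not_reach hn h0 hT hnb (b := c) (j := 2) ?_ (by norm_num) ?_
  · intro g hg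
    exact hms' g (stab_mono X isTy_empty hs (Set.empty_subset _) c hg)
  · exact ⟨s, b, ⟨X.symm _ _ _ hs h1, hms'⟩, t, n • c, ⟨h2, hmt⟩, rfl⟩

theorem Ctx.four (D : Ctx X φ m) {n : H} (hn : n ∈ NN X φ m) {s t : S} (hst : s ≠ t)
    {b0 b1 b2 b3 : B} (h1 : X.r {s} b0 b1) (h2 : X.r {t} b1 b2) (h3 : X.r {s} b2 b3)
    (h4 : X.r {t} b3 (n • b0)) : b0 = b1 ∨ b1 = b2 ∨ b2 = b3 ∨ b3 = n • b0 := by
  have hs := isTy_one s
  have ht := isTy_one t
  have hT := isTy_two hst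
  have hsT : ({s} : Set S) ⊆ {s, t} := by simp
  have htT : ({t} : Set S) ⊆ {s, t} := by simp
  by_cases h0 : n = 1
  · rw [h0, one_smul] at h4
    rcases X.four s t b0 b1 b2 b3 hst h1 h2 h3 h4 with h | h
    · exact Or.inl h
    · exact Or.inr (Or.inl h)
  have k1 : X.r {s, t} b0 b1 := X.mono _ _ _ _ hsT hs hT h1
  have k2 : X.r {s, t} b0 b2 := X.trans _ _ _ _ hT k1 (X.mono _ _ _ _ htT ht hT h2)
  have k3 : X.r {s, t} b0 b3 := X.trans _ _ _ _ hT k2 (X.mono _ _ _ _ hsT hs hT h3)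
  have k4 : X.r {s, t} b0 (n • b0) := X.trans _ _ _ _ hT k3 (X.mono _ _ _ _ htT ht hT h4)
  have n0 : n ∈ X.stab H {s, t} b0 := k4
  have n1 : n ∈ X.stab H {s, t} b1 := by rw [← stab_congr X D.inv hT k1]; exact n0
  have n2 : n ∈ X.stab H {s, t} b2 := by rw [← stab_congr X D.inv hT k2]; exact n0
  have n3 : n ∈ X.stab H {s, t} b3 := by rw [← stab_congr X D.inv hT k3]; exact n0
  have g1 := D.inv n _ _ _ h1
  have g2 := D.inv n _ _ _ h2
  have g3 := D.inv n _ _ _ h3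
  by_cases m0 : ∃ h ∈ X.stab H {s} b0, h ≠ 1
  · obtain ⟨h, hh, hh1⟩ := m0
    rw [← D.stab_eq hs hT hsT hh hh1] at n0
    rcases X.four t s b1 b2 b3 (n • b0) hst.symm h2 h3 h4
      (X.trans _ _ _ _ hs (X.symm _ _ _ hs n0) h1) with h | h
    · exact Or.inr (Or.inl h)
    · exact Or.inr (Or.inr (Or.inl h))
  by_cases m1 : ∃ h ∈ X.stab H {t} b1, h ≠ 1
  · obtain ⟨h, hh, hh1⟩ := m1
    rw [← D.stab_eq ht hT htT hh hh1] at n1
    rcases X.four s t b2 b3 (n • b0) (n • b1) hst h3 h4 g1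
      (X.trans _ _ _ _ ht (X.symm _ _ _ ht n1) h2) with h | h
    · exact Or.inr (Or.inr (Or.inl h))
    · exact Or.inr (Or.inr (Or.inr h))
  by_cases m2 : ∃ h ∈ X.stab H {s} b2, h ≠ 1
  · obtain ⟨h, hh, hh1⟩ := m2
    rw [← D.stab_eq hs hT hsT hh hh1] at n2
    rcases X.four t s b3 (n • b0) (n • b1) (n • b2) hst.symm h4 g1 g2
      (X.trans _ _ _ _ hs (X.symm _ _ _ hs n2) h3) with h | h
    · exact Or.inr (Or.inr (Or.inr h))
    · exact Or.inl (MulAction.injective n h)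
  by_cases m3 : ∃ h ∈ X.stab H {t} b3, h ≠ 1
  · obtain ⟨h, hh, hh1⟩ := m3
    rw [← D.stab_eq ht hT htT hh hh1] at n3
    rcases X.four s t (n • b0) (n • b1) (n • b2) (n • b3) hst g1 g2 g3
      (X.trans _ _ _ _ ht (X.symm _ _ _ ht n3) h4) with h | h
    · exact Or.inl (MulAction.injective n h)
    · exact Or.inr (Or.inl (MulAction.injective n h))
  exfalso
  push Not at m0 m1 m2 m3
  refine D.not_reach hn h0 hT n0 (b := b0) (j := 4) ?_ le_rfl ?_
  · intro g hg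
    exact m0 g (stab_mono X isTy_empty hs (Set.empty_subset _) b0 hg)
  · exact ⟨s, b1, ⟨h1, m0⟩, t, b2, ⟨h2, m1⟩, s, b3, ⟨h3, m2⟩, t, n • b0, ⟨h4, m3⟩, rfl⟩

theorem Ctx.ytwo (D : Ctx X φ m) (s t : S) (c c' : Orb B (NN X φ m)) (hst : s ≠ t)
    (h1 : YR X (NN X φ m) {s} c c') (h2 : YR X (NN X φ m) {t} c c') : c = c' := by
  obtain ⟨b, rfl⟩ := qq_surj _ c
  obtain ⟨b', rfl⟩ := qq_surj _ c'
  obtain ⟨n, hn⟩ := (YR_iff X D.inv _ _ _ _).1 h1
  obtain ⟨k, hk⟩ := (YR_iff X D.inv _ _ _ _).1 h2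
  have h3 : X.r {t} b (((k : H) * (n : H)⁻¹) • ((n : H) • b')) := by
    rw [mul_smul, inv_smul_smul]
    exact hk
  rcases D.two (mul_mem k.2 (inv_mem n.2)) hst hn h3 with h | h
  · rw [h]
    exact qq_smul _ _ n.2 b'
  · rw [mul_smul] at h
    have h' : b = (k : H) • b' := by
      rw [h]
      show (k : H) • (n : H)⁻¹ • ((n : H) • b') = _
      rw [inv_smul_smul]
    rw [h']
    exact qq_smul _ _ k.2 b'

/-- the quotient chamber system -/
def Ctx.Y (D : Ctx X φ m) : Sys S (Orb B (NN X φ m)) where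
  r := YR X (NN X φ m)
  refl := by
    intro T c hT
    obtain ⟨b, rfl⟩ := qq_surj _ c
    exact ⟨b, b, rfl, rfl, X.refl _ _ hT⟩
  symm := by
    rintro T c c' hT ⟨b, b', h1, h2, h3⟩
    exact ⟨b', b, h2, h1, X.symm _ _ _ hT h3⟩
  trans := by
    intro T c c' c'' hT h1 h2
    obtain ⟨b, rfl⟩ := qq_surj _ c
    obtain ⟨b', rfl⟩ := qq_surj _ c'
    obtain ⟨b'', rfl⟩ := qq_surj _ c''
    obtain ⟨n, hn⟩ := (YR_iff X D.inv _ _ _ _).1 h1
    obtain ⟨k, hk⟩ := (YR_iff X D.inv _ _ _ _).1 h2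
    refine (YR_iff X D.inv _ _ _ _).2 ⟨n * k, ?_⟩
    rw [mul_smul]
    exact X.trans _ _ _ _ hT hn (D.inv (n : H) _ _ _ hk)
  mono := by
    rintro T T' c c' hTT hT hT' ⟨b, b', h1, h2, h3⟩
    exact ⟨b, b', h1, h2, X.mono _ _ _ _ hTT hT hT' h3⟩
  zero := by
    rintro c c' ⟨b, b', h1, h2, h3⟩
    rw [← h1, ← h2, X.zero _ _ h3]
  two := fun s t c c' hst h1 h2 => D.ytwo s t c c' hst h1 h2
  four := by
    intro s t c0 c1 c2 c3 hst h1 h2 h3 h4
    have hs := isTy_one s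
    have ht := isTy_one t
    have htr : ∀ (T : Set S) (_ : IsTy T) (c c' c'' : Orb B (NN X φ m)),
        YR X (NN X φ m) T c c' → YR X (NN X φ m) T c' c'' → YR X (NN X φ m) T c c'' := by
      intro T hT c c' c'' h1 h2
      obtain ⟨b, rfl⟩ := qq_surj _ c
      obtain ⟨b', rfl⟩ := qq_surj _ c'
      obtain ⟨b'', rfl⟩ := qq_surj _ c''
      obtain ⟨n, hn⟩ := (YR_iff X D.inv _ _ _ _).1 h1
      obtain ⟨k, hk⟩ := (YR_iff X D.inv _ _ _ _).1 h2
      refine (YR_iff X D.inv _ _ _ _).2 ⟨n * k, ?_⟩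
      rw [mul_smul]
      exact X.trans _ _ _ _ hT hn (D.inv (n : H) _ _ _ hk)
    have hsy : ∀ (T : Set S) (_ : IsTy T) (c c' : Orb B (NN X φ m)),
        YR X (NN X φ m) T c c' → YR X (NN X φ m) T c' c := by
      rintro T hT c c' ⟨b, b', h1, h2, h3⟩
      exact ⟨b', b, h2, h1, X.symm _ _ _ hT h3⟩
    have key : c0 = c1 ∨ c1 = c2 ∨ c2 = c3 ∨ c3 = c0 := by
      obtain ⟨b0, rfl⟩ := qq_surj _ c0
      obtain ⟨b1, rfl⟩ := qq_surj _ c1
      obtain ⟨b2, rfl⟩ := qq_surj _ c2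
      obtain ⟨b3, rfl⟩ := qq_surj _ c3
      obtain ⟨n1, k1⟩ := (YR_iff X D.inv _ _ _ _).1 h1
      obtain ⟨n2, k2⟩ := (YR_iff X D.inv _ _ _ _).1 h2
      obtain ⟨n3, k3⟩ := (YR_iff X D.inv _ _ _ _).1 h3
      obtain ⟨n4, k4⟩ := (YR_iff X D.inv _ _ _ _).1 h4
      have l1 : X.r {s} b0 ((n1 : H) • b1) := k1
      have l2 : X.r {t} ((n1 : H) • b1) (((n1 : H) * n2) • b2) := by
        rw [mul_smul]; exact D.inv (n1 : H) _ _ _ k2
      have l3 : X.r {s} (((n1 : H) * n2) • b2) (((n1 : H) * n2 * n3) • b3) := by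
        rw [mul_smul _ _ b3]; exact D.inv ((n1 : H) * n2) _ _ _ k3
      have l4 : X.r {t} (((n1 : H) * n2 * n3) • b3) (((n1 : H) * n2 * n3 * n4) • b0) := by
        rw [mul_smul _ _ b0]; exact D.inv ((n1 : H) * n2 * n3) _ _ _ k4
      have e1 := qq_smul (NN X φ m) (n1 : H) n1.2 b1
      have e2 := qq_smul (NN X φ m) ((n1 : H) * n2) (mul_mem n1.2 n2.2) b2
      have e3 := qq_smul (NN X φ m) ((n1 : H) * n2 * n3) (mul_mem (mul_mem n1.2 n2.2) n3.2) b3
      have e4 := qq_smul (NN X φ m) ((n1 : H) * n2 * n3 * n4)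
        (mul_mem (mul_mem (mul_mem n1.2 n2.2) n3.2) n4.2) b0
      rcases D.four (mul_mem (mul_mem (mul_mem n1.2 n2.2) n3.2) n4.2) hst l1 l2 l3 l4 with
        h | h | h | h
      · left; rw [← e1, ← h]
      · right; left; rw [← e1, ← e2, ← h]
      · right; right; left; rw [← e2, ← e3, ← h]
      · right; right; right; rw [← e3, h, e4]
    rcases key with h | h | h | h
    · exact Or.inl h
    · exact Or.inr h
    · left
      subst h
      exact D.ytwo s t _ _ hst h1 (hsy _ ht _ _ (htr _ ht _ _ _ h2 h4))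
    · right
      subst h
      exact D.ytwo s t _ _ hst (hsy _ hs _ _ (htr _ hs _ _ _ h3 h1)) h2

end Pool.Agent.helper15.LTQ
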