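import Pool.Agent.helper15.LTQ.Gal

set_option autoImplicit false

/-!
# Stabilisers of classes and the choice of the exponent
-/

namespace Pool.Agent.helper15.LTQ

open Pool.Agent.helper36.LT

variable {S B : Type} {H : Type} [Group H] [MulAction H B]

theorem isTy_empty : IsTy (∅ : Set S) := Or.inl rfl

theorem isTy_one (s : S) : IsTy ({s} : Set S) := Or.inr (Or.inl ⟨s, rfl⟩)

theorem isTy_two {s t : S} (h : s ≠ t) : IsTy ({s, t} : Set S) := Or.inr (Or.inr ⟨s, t, h, rfl⟩)

/-- the stabiliser as a subgroup -/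
def stabSub (X : Sys S B) (hH : X.Inv H) (T : Set S) (hT : IsTy T) (b : B) : Subgroup H where
  carrier := X.stab H T b
  one_mem' := by
    show X.r T b ((1 : H) • b)
    rw [one_smul]
    exact X.refl _ _ hT
  mul_mem' := by
    intro g h hg hh
    show X.r T b ((g * h) • b)
    rw [mul_smul]
    exact X.trans _ _ _ _ hT hg (hH g _ _ _ hh)
  inv_mem' := by
    intro g hg
    show X.r T b (g⁻¹ • b)
    have h := hH g⁻¹ _ _ _ (show X.r T b (g • b) from hg)
    rw [inv_smul_smul] at h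
    exact X.symm _ _ _ hT h

theorem mem_stabSub (X : Sys S B) (hH : X.Inv H) (T : Set S) (hT : IsTy T) (b : B) (h : H) :
    h ∈ stabSub X hH T hT b ↔ X.r T b (h • b) := Iff.rfl

theorem stab_congr (X : Sys S B) (hH : X.Inv H) {T : Set S} (hT : IsTy T) {b c : B}
    (h : X.r T b c) : X.stab H T b = X.stab H T c := by
  ext g
  show X.r T b (g • b) ↔ X.r T c (g • c)
  constructor
  · intro h1
    exact X.trans _ _ _ _ hT (X.symm _ _ _ hT h) (X.trans _ _ _ _ hT h1 (hH g _ _ _ h))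
  · intro h1
    exact X.trans _ _ _ _ hT h (X.trans _ _ _ _ hT h1 (X.symm _ _ _ hT (hH g _ _ _ h)))

theorem stab_mono (X : Sys S B) {T T' : Set S} (hT : IsTy T) (hT' : IsTy T') (hTT : T ⊆ T')
    (b : B) : X.stab H T b ⊆ X.stab H T' b := fun _ h => X.mono _ _ _ _ hTT hT hT' h

theorem stab_conj (X : Sys S B) (hH : X.Inv H) {T : Set S} {b : B} {h : H} (g : H)
    (hh : h ∈ X.stab H T b) : g * h * g⁻¹ ∈ X.stab H T (g • b) := by
  show X.r T (g • b) ((g * h * g⁻¹) • g • b)
  rw [← mul_smul, inv_mul_cancel_right, mul_smul]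
  exact hH g _ _ _ hh

section phi

variable (X : Sys S B) (hH : X.Inv H) (φ : H →* Multiplicative ℤ) (hφ : X.InjStab φ)
include hH hφ

theorem phi_inj {T : Set S} (hT : IsTy T) {b : B} {g h : H} (hg : g ∈ X.stab H T b)
    (hh : h ∈ X.stab H T b) (he : φ g = φ h) : g = h := by
  have h1 : g * h⁻¹ ∈ X.stab H T b :=
    (stabSub X hH T hT b).mul_mem hg ((stabSub X hH T hT b).inv_mem hh)
  have h2 : φ (g * h⁻¹) = 1 := by rw [map_mul, map_inv, he, mul_inv_cancel]
  have h3 := hφ T b hT _ h1 h2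
  exact mul_inv_eq_one.1 h3

theorem stab_eq (hsurj : ∀ T b, IsTy T → (∃ h ∈ X.stab H T b, h ≠ 1) → ∀ k,
      ∃ h ∈ X.stab H T b, φ h = k)
    {T T' : Set S} (hT : IsTy T) (hT' : IsTy T') (hTT : T ⊆ T') {b : B} {h : H}
    (hh : h ∈ X.stab H T b) (h1 : h ≠ 1) : X.stab H T b = X.stab H T' b := by
  refine Set.Subset.antisymm (stab_mono X hT hT' hTT b) ?_
  intro g hg
  obtain ⟨g', hg', he⟩ := hsurj T b hT ⟨h, hh, h1⟩ (φ g)
  have h2 : g' = g := phi_inj X hH φ hφ hT' (stab_mono X hT hT' hTT b hg') hg he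
  rw [← h2]
  exact hg'

end phi

/-! ## Unmarked panels and the bound -/

/-- adjacent in an unmarked panel -/
def Um (X : Sys S B) (H : Type) [Group H] [MulAction H B] (s : S) (b c : B) : Prop :=
  X.r {s} b c ∧ ∀ h ∈ X.stab H {s} b, h = 1

/-- what one can reach in `n` steps -/
def Reach (X : Sys S B) (H : Type) [Group H] [MulAction H B] : ℕ → B → Set B
  | 0, b => {b}
  | n + 1, b => {c | ∃ s d, Um X H s b d ∧ c ∈ Reach X H n d}

theorem um_finite (X : Sys S B) (hH : X.Inv H) (hF : FinOrb H B) (s : S) (b : B) :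
    {c | Um X H s b c}.Finite := by
  obtain ⟨F, hFf, hF'⟩ := hF
  choose g hg using hF'
  refine Set.Finite.of_injOn (f := fun c => g c • c) (t := F) ?_ ?_ hFf
  · intro c _
    exact hg c
  · intro c hc d hd he
    have he' : g c • c = g d • d := he
    have h1 : ((g d)⁻¹ * g c) • c = d := by
      rw [mul_smul, he', inv_smul_smul]
    have hcd : X.r {s} c d := X.trans _ _ _ _ (isTy_one s) (X.symm _ _ _ (isTy_one s) hc.1) hd.1
    have h2 : (g d)⁻¹ * g c ∈ X.stab H {s} c := by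
      show X.r {s} c _
      rw [h1]
      exact hcd
    rw [← stab_congr X hH (isTy_one s) hc.1] at h2
    have h3 := hc.2 _ h2
    rw [h3, one_smul] at h1
    exact h1

theorem reach_finite [Finite S] (X : Sys S B) (hH : X.Inv H) (hF : FinOrb H B) (n : ℕ) (b : B) :
    (Reach X H n b).Finite := by
  induction n generalizing b with
  | zero => exact Set.finite_singleton b
  | succ n ih =>
    have h1 : Reach X H (n + 1) b = ⋃ s : S, ⋃ d ∈ {c | Um X H s b c}, Reach X H n d := by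
      ext c
      simp only [Reach, Set.mem_setOf_eq, Set.mem_iUnion, exists_prop]
    rw [h1]
    exact Set.finite_iUnion fun s => (um_finite X hH hF s b).biUnion fun d _ => ih d

theorem um_smul (X : Sys S B) (hH : X.Inv H) {s : S} {b c : B} (g : H) (h : Um X H s b c) :
    Um X H s (g • b) (g • c) := by
  refine ⟨hH g _ _ _ h.1, ?_⟩
  intro k hk
  have h1 := stab_conj X hH g⁻¹ hk
  rw [inv_smul_smul, inv_inv] at h1
  have h2 := h.2 _ h1
  have h3 : k = g * (g⁻¹ * k * g) * g⁻¹ := by group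
  rw [h3, h2]
  group

theorem reach_smul (X : Sys S B) (hH : X.Inv H) (g : H) (n : ℕ) {b c : B}
    (h : c ∈ Reach X H n b) : g • c ∈ Reach X H n (g • b) := by
  induction n generalizing b with
  | zero =>
    have h1 : c = b := h
    rw [h1]
    rfl
  | succ n ih =>
    obtain ⟨s, d, h1, h2⟩ := h
    exact ⟨s, g • d, um_smul X hH g h1, ih h2⟩

/-- the bound -/
theorem exists_bound [Finite S] (X : Sys S B) (hH : X.Inv H) (hF : FinOrb H B)
    (φ : H →* Multiplicative ℤ) :
    ∃ m : ℕ, 0 < m ∧ ∀ (b : B) (h : H) (j : ℕ), (∀ g ∈ X.stab H ∅ b, g = 1) → j ≤ 4 →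
      h • b ∈ Reach X H j b → (Multiplicative.toAdd (φ h)).natAbs < m := by
  obtain ⟨F, hFf, hF'⟩ := hF
  let E : B → Set H := fun b => {h | (∀ g ∈ X.stab H ∅ b, g = 1) ∧ ∃ j ≤ 4, h • b ∈ Reach X H j b}
  have hE : ∀ b, (E b).Finite := by
    intro b
    by_cases hb : ∀ g ∈ X.stab H ∅ b, g = 1
    · refine Set.Finite.of_injOn (f := fun h : H => h • b)
        (t := ⋃ j ∈ {j : ℕ | j ≤ 4}, Reach X H j b) ?_ ?_ ?_
      · rintro h ⟨_, j, hj, hjr⟩
        simp only [Set.mem_iUnion]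
        exact ⟨j, hj, hjr⟩
      · intro h _ k _ he
        have he' : h • b = k • b := he
        have h1 : k⁻¹ * h ∈ X.stab H ∅ b := by
          show X.r ∅ b _
          rw [mul_smul, he', inv_smul_smul]
          exact X.refl _ _ isTy_empty
        have h2 := hb _ h1
        exact (inv_mul_eq_one.1 h2).symm
      · exact (Set.finite_le_nat 4).biUnion fun j _ => reach_finite X hH ⟨F, hFf, hF'⟩ j b
    · have : E b = ∅ := by
        ext h
        simp only [Set.mem_empty_iff_false, iff_false]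
        exact fun h1 => hb h1.1
      rw [this]
      exact Set.finite_empty
  have hU : (⋃ b ∈ F, (fun h : H => (Multiplicative.toAdd (φ h)).natAbs) '' (E b)).Finite :=
    hFf.biUnion fun b _ => (hE b).image _
  obtain ⟨M, hM⟩ := hU.bddAbove
  refine ⟨M + 1, Nat.succ_pos _, ?_⟩
  intro b h j hb hj hr
  obtain ⟨g, hg⟩ := hF' b
  refine Nat.lt_succ_of_le (hM ?_)
  simp only [Set.mem_iUnion]
  refine ⟨g • b, hg, g * h * g⁻¹, ⟨?_, j, hj, ?_⟩, ?_⟩
  · intro k hk
    have h1 := stab_conj X hH g⁻¹ hk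
    rw [inv_smul_smul, inv_inv] at h1
    have h2 := hb _ h1
    have h3 : k = g * (g⁻¹ * k * g) * g⁻¹ := by group
    rw [h3, h2]
    group
  · rw [← mul_smul, inv_mul_cancel_right, mul_smul]
    exact reach_smul X hH g j hr
  · have : φ (g * h * g⁻¹) = φ h := by
      rw [map_mul, map_mul, map_inv, mul_comm (φ g), mul_assoc, mul_inv_cancel, mul_one]
    simp only [this]

/-! ## The normal subgroup -/

section N

variable (X : Sys S B) (φ : H →* Multiplicative ℤ) (m : ℕ)

/-- generators of `N` -/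
def gens : Set H := {h | ∃ T b, IsTy T ∧ h ∈ X.stab H T b ∧ φ h = Multiplicative.ofAdd (m : ℤ)}

/-- the subgroup `N` -/
def NN : Subgroup H := Subgroup.closure (gens X φ m)

theorem gens_conj (hH : X.Inv H) {h : H} (hh : h ∈ gens X φ m) (g : H) :
    g * h * g⁻¹ ∈ gens X φ m := by
  obtain ⟨T, b, hT, h1, h2⟩ := hh
  refine ⟨T, g • b, hT, stab_conj X hH g h1, ?_⟩
  rw [map_mul, map_mul, map_inv, mul_comm (φ g), mul_assoc, mul_inv_cancel, mul_one, h2]

theorem NN_normal (hH : X.Inv H) : (NN X φ m).Normal := by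
  constructor
  intro n hn g
  refine Subgroup.closure_induction (p := fun n _ => g * n * g⁻¹ ∈ NN X φ m) ?_ ?_ ?_ ?_ hn
  · intro x hx
    exact Subgroup.subset_closure (gens_conj X φ m hH hx g)
  · rw [mul_one, mul_inv_cancel]
    exact one_mem _
  · intro x y _ _ h1 h2
    have : g * (x * y) * g⁻¹ = (g * x * g⁻¹) * (g * y * g⁻¹) := by group
    rw [this]
    exact mul_mem h1 h2
  · intro x _ h1
    have : g * x⁻¹ * g⁻¹ = (g * x * g⁻¹)⁻¹ := by group
    rw [this]
    exact inv_mem h1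

theorem NN_dvd {n : H} (hn : n ∈ NN X φ m) : (m : ℤ) ∣ Multiplicative.toAdd (φ n) := by
  refine Subgroup.closure_induction (p := fun n _ => (m : ℤ) ∣ Multiplicative.toAdd (φ n))
    ?_ ?_ ?_ ?_ hn
  · rintro x ⟨T, b, _, _, h2⟩
    rw [h2]
    exact dvd_refl _
  · simp
  · intro x y _ _ h1 h2
    rw [map_mul, toAdd_mul]
    exact dvd_add h1 h2
  · intro x _ h1
    rw [map_inv, toAdd_inv]
    exact (dvd_neg).2 h1

theorem mem_NN (hH : X.Inv H) (hφ : X.InjStab φ)
    (hsurj : ∀ T b, IsTy T → (∃ h ∈ X.stab H T b, h ≠ 1) → ∀ k, ∃ h ∈ X.stab H T b, φ h = k)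
    {T : Set S} (hT : IsTy T) {b : B} {h : H} (hh : h ∈ X.stab H T b)
    (hd : (m : ℤ) ∣ Multiplicative.toAdd (φ h)) : h ∈ NN X φ m := by
  by_cases h1 : h = 1
  · rw [h1]
    exact one_mem _
  obtain ⟨g, hg, he⟩ := hsurj T b hT ⟨h, hh, h1⟩ (Multiplicative.ofAdd (m : ℤ))
  obtain ⟨j, hj⟩ := hd
  have h2 : g ^ j ∈ X.stab H T b := (stabSub X hH T hT b).zpow_mem hg j
  have h3 : φ (g ^ j) = φ h := by
    rw [map_zpow, he]
    apply Multiplicative.toAdd.injective
    rw [toAdd_zpow, toAdd_ofAdd, hj, smul_eq_mul, mul_comm]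
  have h4 : g ^ j = h := phi_inj X hH φ hφ hT h2 hh h3
  rw [← h4]
  have hgen : g ∈ gens X φ m := ⟨T, b, hT, hg, he⟩
  exact Subgroup.zpow_mem _ (Subgroup.subset_closure hgen) j

end N

end Pool.Agent.helper15.LTQ
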